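import Pool.Agent.H94.MS.AA1

/-! Module AA of the board `mcs_modules`, part 2: the character factor. -/

set_option autoImplicit false

namespace Pool.Agent.H94.MS

open Finset Real Filter Topology Pool.Agent.H44.MS

theorem aa_tele (a : ℝ) (ha : 0 < a) (n : ℕ) (hn : 0 < n) :
    a * (((n + 1 : ℕ) : ℝ) ^ (-a) / ((n + 1 : ℕ) : ℝ)) ≤
      (n : ℝ) ^ (-a) - ((n + 1 : ℕ) : ℝ) ^ (-a) := by
  have h0 : (0 : ℝ) < n := by exact_mod_cast hn
  push_cast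
  have h1 : (0 : ℝ) < (n : ℝ) + 1 := by linarith
  have hr : 0 < ((n : ℝ) + 1) / n := by positivity
  have e1 : (n : ℝ) ^ (-a) = ((n : ℝ) + 1) ^ (-a) * (((n : ℝ) + 1) / n) ^ a := by
    rw [Real.div_rpow h1.le h0.le, Real.rpow_neg h1.le, Real.rpow_neg h0.le]
    have h2 : ((n : ℝ) + 1) ^ a ≠ 0 := (Real.rpow_pos_of_pos h1 a).ne'
    field_simp
  have h3 : 1 + a / ((n : ℝ) + 1) ≤ (((n : ℝ) + 1) / n) ^ a := by
    rw [Real.rpow_def_of_pos hr]
    have h4 := Real.add_one_le_exp (Real.log (((n : ℝ) + 1) / n) * a)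
    have h5 := Real.one_sub_inv_le_log_of_pos hr
    have e2 : 1 - (((n : ℝ) + 1) / n)⁻¹ = 1 / ((n : ℝ) + 1) := by
      field_simp
      ring
    rw [e2] at h5
    have h6 : 1 / ((n : ℝ) + 1) * a ≤ Real.log (((n : ℝ) + 1) / n) * a :=
      mul_le_mul_of_nonneg_right h5 ha.le
    have e3 : a / ((n : ℝ) + 1) = 1 / ((n : ℝ) + 1) * a := by ring
    rw [e3]
    linarith
  have h7 := mul_le_mul_of_nonneg_left h3 (Real.rpow_nonneg h1.le (-a))
  rw [← e1] at h7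
  have e4 : ((n : ℝ) + 1) ^ (-a) * (1 + a / ((n : ℝ) + 1)) =
      ((n : ℝ) + 1) ^ (-a) + a * (((n : ℝ) + 1) ^ (-a) / ((n : ℝ) + 1)) := by ring
  rw [e4] at h7
  linarith

theorem aa_two_rpow {z : ℕ} (hz : 2 ≤ z) (x : ℕ) (hx : 0 < x) :
    (2 : ℝ) ^ (-(Real.log x / (10 * Real.log z))) =
      (x : ℝ) ^ (-(Real.log 2 / (10 * Real.log z))) := by
  have h0 : (0 : ℝ) < x := by exact_mod_cast hx
  rw [Real.rpow_def_of_pos (by norm_num), Real.rpow_def_of_pos h0]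
  congr 1
  ring

/-- The sum of the character over the rough numbers. -/
noncomputable def Sx (z x : ℕ) : ℝ := ∑ b ∈ Icc 1 x, ic (Rough z b) * chi b

/-- The corrected sum. -/
noncomputable def Hx (z x : ℕ) : ℝ := AE z x - Sx z x / ((x : ℝ) + 1)

theorem Hx_succ (z x : ℕ) : Hx z (x + 1) - Hx z x =
    Sx z (x + 1) / (((x + 1 : ℕ) : ℝ) * ((x : ℝ) + 2)) := by
  have e1 : AE z (x + 1) = AE z x + (Sx z (x + 1) - Sx z x) / ((x : ℝ) + 1) := by
    unfold AE Sx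
    rw [Finset.sum_Icc_succ_top (Nat.succ_le_succ (Nat.zero_le x)),
      Finset.sum_Icc_succ_top (Nat.succ_le_succ (Nat.zero_le x))]
    push_cast
    ring
  unfold Hx
  rw [e1]
  push_cast
  have h1 : (x : ℝ) + 1 ≠ 0 := by positivity
  have h2 : (x : ℝ) + 2 ≠ 0 := by positivity
  have h3 : (x : ℝ) + 1 + 1 = x + 2 := by ring
  rw [h3]
  field_simp
  ring

theorem aa_diff {C : ℝ} (hC : 0 < C) {z : ℕ} (hz : 2 ≤ z)
    (hS : ∀ x : ℕ, z ^ 24 ≤ x → |∑ b ∈ Icc 1 x, ic (Rough z b) * chi b| ≤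
      C * x * ((2 : ℝ) ^ (-(Real.log x / (10 * Real.log z))) / Real.log z +
        (x : ℝ) ^ (-(1 / 4 : ℝ)))) (E X : ℕ) (hE : z ^ 24 ≤ E) (hX : E ≤ X) :
    |AE z X - AE z E| ≤ C * (20 / Real.log 2 * (2 : ℝ) ^ (-(Real.log E / (10 * Real.log z))) +
      6 * (E : ℝ) ^ (-(1 / 4 : ℝ))) := by
  have hl2 : 0 < Real.log 2 := Real.log_pos (by norm_num)
  have hzl : Real.log 2 ≤ Real.log z :=
    Real.log_le_log (by norm_num) (by exact_mod_cast hz)
  have hL : 0 < Real.log z := lt_of_lt_of_le hl2 hzl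
  set L := Real.log z with hLdef
  set a := Real.log 2 / (10 * L) with ha
  have ha0 : 0 < a := by positivity
  have hz24 : 0 < z ^ 24 := by positivity
  have hE0 : 0 < E := lt_of_lt_of_le hz24 hE
  have haL : a * L = Real.log 2 / 10 := by
    rw [ha]; field_simp
  -- the bound for the sum
  have hS' : ∀ x : ℕ, E ≤ x → |Sx z x| ≤ C * x * ((x : ℝ) ^ (-a) / L +
      (x : ℝ) ^ (-(1 / 4 : ℝ))) := by
    intro x hx
    have h := hS x (hE.trans hx)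
    rw [aa_two_rpow hz x (lt_of_lt_of_le hE0 hx)] at h
    exact h
  have hstep : ∀ x : ℕ, E ≤ x → |Hx z (x + 1) - Hx z x| ≤
      C * (10 / Real.log 2 * ((x : ℝ) ^ (-a) - ((x + 1 : ℕ) : ℝ) ^ (-a)) +
        4 * ((x : ℝ) ^ (-(1 / 4 : ℝ)) - ((x + 1 : ℕ) : ℝ) ^ (-(1 / 4 : ℝ)))) := by
    intro x hx
    have hx0 : 0 < x := lt_of_lt_of_le hE0 hx
    have h1 := hS' (x + 1) (hx.trans (Nat.le_succ x))
    have t1 := aa_tele a ha0 x hx0
    have t2 := aa_tele (1 / 4) (by norm_num) x hx0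
    set y : ℝ := ((x + 1 : ℕ) : ℝ) with hy
    have hy0 : 0 < y := by rw [hy]; exact_mod_cast Nat.succ_pos x
    have hy2 : (x : ℝ) + 2 = y + 1 := by rw [hy]; push_cast; ring
    rw [Hx_succ, abs_div, ← hy, hy2, abs_of_pos (by positivity : 0 < y * (y + 1))]
    have hp1 : 0 ≤ y ^ (-a) := Real.rpow_nonneg hy0.le _
    have hp2 : 0 ≤ y ^ (-(1 / 4 : ℝ)) := Real.rpow_nonneg hy0.le _
    have h2 : |Sx z (x + 1)| / (y * (y + 1)) ≤
        C * y * (y ^ (-a) / L + y ^ (-(1 / 4 : ℝ))) / (y * y) := by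
      refine (div_le_div_of_nonneg_right h1 (by positivity)).trans ?_
      refine div_le_div_of_nonneg_left (by positivity) (by positivity) ?_
      nlinarith
    refine h2.trans ?_
    have e1 : C * y * (y ^ (-a) / L + y ^ (-(1 / 4 : ℝ))) / (y * y) =
        C * (1 / L * (y ^ (-a) / y) + y ^ (-(1 / 4 : ℝ)) / y) := by
      field_simp
    rw [e1]
    refine mul_le_mul_of_nonneg_left ?_ hC.le
    have t1' : 1 / L * (y ^ (-a) / y) ≤
        10 / Real.log 2 * ((x : ℝ) ^ (-a) - y ^ (-a)) := by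
      have e2 : 1 / L * (y ^ (-a) / y) = 10 / Real.log 2 * (a * (y ^ (-a) / y)) := by
        have : 1 / L = 10 / Real.log 2 * a := by
          rw [ha]; field_simp
        rw [this]
        ring
      rw [e2]
      exact mul_le_mul_of_nonneg_left t1 (by positivity)
    linarith
  have hmain : ∀ x : ℕ, E ≤ x → |Hx z x - Hx z E| ≤
      C * (10 / Real.log 2 * ((E : ℝ) ^ (-a) - (x : ℝ) ^ (-a)) +
        4 * ((E : ℝ) ^ (-(1 / 4 : ℝ)) - (x : ℝ) ^ (-(1 / 4 : ℝ)))) := by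
    intro x hx
    induction x, hx using Nat.le_induction with
    | base => simp
    | succ x hx ih =>
      have h := hstep x hx
      have h3 := abs_add_le (Hx z (x + 1) - Hx z x) (Hx z x - Hx z E)
      have e : Hx z (x + 1) - Hx z x + (Hx z x - Hx z E) = Hx z (x + 1) - Hx z E := by ring
      rw [e] at h3
      refine h3.trans ((add_le_add h ih).trans (le_of_eq ?_))
      ring
  have hmX := hmain X hX
  have hX0 : 0 < X := lt_of_lt_of_le hE0 hX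
  have hE1 : (0 : ℝ) < E := by exact_mod_cast hE0
  have hX1 : (0 : ℝ) < X := by exact_mod_cast hX0
  have hEX : (E : ℝ) ≤ X := by exact_mod_cast hX
  have hSa : ∀ x : ℕ, E ≤ x → |Sx z x| / ((x : ℝ) + 1) ≤
      C * ((E : ℝ) ^ (-a) / L + (E : ℝ) ^ (-(1 / 4 : ℝ))) := by
    intro x hx
    have hx1 : (0 : ℝ) < x := by exact_mod_cast lt_of_lt_of_le hE0 hx
    have hEx : (E : ℝ) ≤ x := by exact_mod_cast hx
    rw [div_le_iff₀ (by positivity)]
    refine (hS' x hx).trans ?_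
    have m1 : (x : ℝ) ^ (-a) ≤ (E : ℝ) ^ (-a) :=
      Real.rpow_le_rpow_of_nonpos hE1 hEx (by linarith)
    have m2 : (x : ℝ) ^ (-(1 / 4 : ℝ)) ≤ (E : ℝ) ^ (-(1 / 4 : ℝ)) :=
      Real.rpow_le_rpow_of_nonpos hE1 hEx (by norm_num)
    have m3 : (x : ℝ) ^ (-a) / L + (x : ℝ) ^ (-(1 / 4 : ℝ)) ≤
        (E : ℝ) ^ (-a) / L + (E : ℝ) ^ (-(1 / 4 : ℝ)) :=
      add_le_add (div_le_div_of_nonneg_right m1 hL.le) m2
    have m4 : 0 ≤ (E : ℝ) ^ (-a) / L + (E : ℝ) ^ (-(1 / 4 : ℝ)) := by positivity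
    calc C * x * ((x : ℝ) ^ (-a) / L + (x : ℝ) ^ (-(1 / 4 : ℝ)))
        ≤ C * x * ((E : ℝ) ^ (-a) / L + (E : ℝ) ^ (-(1 / 4 : ℝ))) :=
          mul_le_mul_of_nonneg_left m3 (by positivity)
      _ ≤ C * ((E : ℝ) ^ (-a) / L + (E : ℝ) ^ (-(1 / 4 : ℝ))) * (x + 1) := by
          have : 0 ≤ C * ((E : ℝ) ^ (-a) / L + (E : ℝ) ^ (-(1 / 4 : ℝ))) := mul_nonneg hC.le m4
          nlinarith
  have s1 := hSa X hX
  have s2 := hSa E le_rfl
  have hdiff : |AE z X - AE z E| ≤ |Hx z X - Hx z E| + |Sx z X| / ((X : ℝ) + 1) +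
      |Sx z E| / ((E : ℝ) + 1) := by
    have e : AE z X - AE z E = (Hx z X - Hx z E) + Sx z X / ((X : ℝ) + 1) -
        Sx z E / ((E : ℝ) + 1) := by
      unfold Hx; ring
    rw [e]
    have h1 := abs_sub ((Hx z X - Hx z E) + Sx z X / ((X : ℝ) + 1)) (Sx z E / ((E : ℝ) + 1))
    have h2 := abs_add_le (Hx z X - Hx z E) (Sx z X / ((X : ℝ) + 1))
    rw [abs_div (Sx z E), abs_of_pos (by positivity : (0 : ℝ) < (E : ℝ) + 1)] at h1
    rw [abs_div (Sx z X), abs_of_pos (by positivity : (0 : ℝ) < (X : ℝ) + 1)] at h2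
    linarith
  rw [aa_two_rpow hz E hE0]
  have q1 : 0 ≤ (X : ℝ) ^ (-a) := Real.rpow_nonneg hX1.le _
  have q2 : 0 ≤ (X : ℝ) ^ (-(1 / 4 : ℝ)) := Real.rpow_nonneg hX1.le _
  have q3 : 0 ≤ (E : ℝ) ^ (-a) := Real.rpow_nonneg hE1.le _
  have q4 : 0 ≤ (E : ℝ) ^ (-(1 / 4 : ℝ)) := Real.rpow_nonneg hE1.le _
  have r1 : C * (10 / Real.log 2 * ((E : ℝ) ^ (-a) - (X : ℝ) ^ (-a)) +
        4 * ((E : ℝ) ^ (-(1 / 4 : ℝ)) - (X : ℝ) ^ (-(1 / 4 : ℝ)))) ≤
      C * (10 / Real.log 2 * (E : ℝ) ^ (-a) + 4 * (E : ℝ) ^ (-(1 / 4 : ℝ))) := by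
    refine mul_le_mul_of_nonneg_left ?_ hC.le
    have : 0 ≤ 10 / Real.log 2 * (X : ℝ) ^ (-a) := by positivity
    nlinarith
  have r2 : C * ((E : ℝ) ^ (-a) / L + (E : ℝ) ^ (-(1 / 4 : ℝ))) ≤
      C * (1 / Real.log 2 * (E : ℝ) ^ (-a) + (E : ℝ) ^ (-(1 / 4 : ℝ))) := by
    refine mul_le_mul_of_nonneg_left ?_ hC.le
    have : (E : ℝ) ^ (-a) / L ≤ (E : ℝ) ^ (-a) / Real.log 2 :=
      div_le_div_of_nonneg_left q3 hl2 hzl
    have e : (E : ℝ) ^ (-a) / Real.log 2 = 1 / Real.log 2 * (E : ℝ) ^ (-a) := by ring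
    linarith
  have r3 : C * (10 / Real.log 2 * (E : ℝ) ^ (-a) + 4 * (E : ℝ) ^ (-(1 / 4 : ℝ))) +
      2 * (C * (1 / Real.log 2 * (E : ℝ) ^ (-a) + (E : ℝ) ^ (-(1 / 4 : ℝ)))) ≤
      C * (20 / Real.log 2 * (E : ℝ) ^ (-a) + 6 * (E : ℝ) ^ (-(1 / 4 : ℝ))) := by
    have e : C * (20 / Real.log 2 * (E : ℝ) ^ (-a) + 6 * (E : ℝ) ^ (-(1 / 4 : ℝ))) -
        (C * (10 / Real.log 2 * (E : ℝ) ^ (-a) + 4 * (E : ℝ) ^ (-(1 / 4 : ℝ))) +
      2 * (C * (1 / Real.log 2 * (E : ℝ) ^ (-a) + (E : ℝ) ^ (-(1 / 4 : ℝ))))) =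
        C * (8 / Real.log 2 * (E : ℝ) ^ (-a)) := by ring
    have : 0 ≤ C * (8 / Real.log 2 * (E : ℝ) ^ (-a)) := by positivity
    linarith
  linarith

theorem pf_AA (RCC : T_RCC) (L1 : T_L1) (MER : T_MER) : T_AA := by
  obtain ⟨C, hC, hR⟩ := RCC
  obtain ⟨c₁, C₁, hc₁, hC₁, hG⟩ := aa_GI MER
  have hl2 : 0 < Real.log 2 := Real.log_pos (by norm_num)
  set W := C * (20 / Real.log 2 + 6) with hW
  have hW0 : 0 < W := by positivity
  set r : ℝ := (2 : ℝ) ^ (-(1 / 10) : ℝ) with hr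
  have hr0 : 0 < r := Real.rpow_pos_of_pos (by norm_num) _
  have hr1 : r < 1 := Real.rpow_lt_one_of_one_lt_of_neg (by norm_num) (by norm_num)
  obtain ⟨U₀, hU₀⟩ := exists_pow_lt_of_lt_one (by positivity : 0 < c₁ / 2 / W) hr1
  refine ⟨c₁ / 2, C₁ + c₁ / 2, by positivity, by positivity, max U₀ 24, ?_⟩
  intro z E hz hE
  set U := max U₀ 24 with hU
  have hzl : Real.log 2 ≤ Real.log z :=
    Real.log_le_log (by norm_num) (by exact_mod_cast hz)
  have hL : 0 < Real.log z := lt_of_lt_of_le hl2 hzl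
  have hz1 : 1 ≤ z := le_trans (by norm_num) hz
  have hE24 : z ^ 24 ≤ E := (Nat.pow_le_pow_right hz1 (le_max_right U₀ 24)).trans hE
  have hE0 : 0 < E := lt_of_lt_of_le (by positivity) hE24
  have hE1 : (0 : ℝ) < E := by exact_mod_cast hE0
  have hlim := aa_lim L1 z
  have hbd : |GI z - AE z E| ≤
      C * (20 / Real.log 2 * (2 : ℝ) ^ (-(Real.log E / (10 * Real.log z))) +
      6 * (E : ℝ) ^ (-(1 / 4 : ℝ))) := by
    have h1 : Tendsto (fun X : ℕ => |AE z X - AE z E|) atTop (𝓝 |GI z - AE z E|) :=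
      (hlim.sub_const _).abs
    refine le_of_tendsto h1 ?_
    filter_upwards [eventually_ge_atTop E] with X hX
    exact aa_diff hC hz (fun x hx => hR z x hz hx) E X hE24 hX
  have hzU : (z : ℝ) ^ U ≤ E := by exact_mod_cast hE
  have hlogE : (U : ℝ) * Real.log z ≤ Real.log E := by
    rw [← Real.log_pow]
    exact Real.log_le_log (by positivity) hzU
  have hrU : r ^ U = (2 : ℝ) ^ (-((U : ℝ) / 10)) := by
    rw [hr, ← Real.rpow_natCast, ← Real.rpow_mul (by norm_num)]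
    congr 1
    ring
  have b1 : (2 : ℝ) ^ (-(Real.log E / (10 * Real.log z))) ≤ r ^ U := by
    rw [hrU]
    refine Real.rpow_le_rpow_of_exponent_le (by norm_num) (neg_le_neg ?_)
    rw [div_le_div_iff₀ (by norm_num) (by positivity)]
    nlinarith
  have b2 : (E : ℝ) ^ (-(1 / 4 : ℝ)) ≤ r ^ U := by
    have h2 : (2 : ℝ) ^ U ≤ E := by
      refine le_trans ?_ hzU
      exact pow_le_pow_left₀ (by norm_num) (by exact_mod_cast hz) U
    calc (E : ℝ) ^ (-(1 / 4 : ℝ)) ≤ ((2 : ℝ) ^ U) ^ (-(1 / 4 : ℝ)) :=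
          Real.rpow_le_rpow_of_nonpos (by positivity) h2 (by norm_num)
      _ = (2 : ℝ) ^ (-((U : ℝ) / 4)) := by
          rw [← Real.rpow_natCast, ← Real.rpow_mul (by norm_num)]
          congr 1
          ring
      _ ≤ r ^ U := by
          rw [hrU]
          refine Real.rpow_le_rpow_of_exponent_le (by norm_num) (neg_le_neg ?_)
          have : (0 : ℝ) ≤ U := Nat.cast_nonneg U
          linarith
  have b3 : r ^ U ≤ r ^ U₀ := pow_le_pow_of_le_one hr0.le hr1.le (le_max_left U₀ 24)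
  have b4 : r ^ U₀ * W ≤ c₁ / 2 := by
    have := (lt_div_iff₀ hW0).1 hU₀
    exact this.le
  have hbd2 : |GI z - AE z E| ≤ c₁ / 2 := by
    refine hbd.trans ?_
    calc C * (20 / Real.log 2 * (2 : ℝ) ^ (-(Real.log E / (10 * Real.log z))) +
        6 * (E : ℝ) ^ (-(1 / 4 : ℝ))) ≤ C * (20 / Real.log 2 * r ^ U + 6 * r ^ U) := by
          refine mul_le_mul_of_nonneg_left (add_le_add ?_ ?_) hC.le
          · exact mul_le_mul_of_nonneg_left b1 (by positivity)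
          · exact mul_le_mul_of_nonneg_left b2 (by norm_num)
      _ = r ^ U * W := by rw [hW]; ring
      _ ≤ r ^ U₀ * W := mul_le_mul_of_nonneg_right b3 hW0.le
      _ ≤ c₁ / 2 := b4
  have h3 := abs_le.1 hbd2
  have h4 := hG z hz
  constructor <;> linarith

end Pool.Agent.H94.MS
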