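import Pool.Agent.H44.MS.Basics

/-! Module BB of the board `mcs_modules`: the decomposition of the difference. -/

set_option autoImplicit false

namespace Pool.Agent.H94.MS

open Finset Real Pool.Agent.H44.MS

theorem abs_mid_le (z E m : ℕ) : |mid z E m| ≤ mdc z E m := by
  unfold mid mdc
  refine (Finset.abs_sum_le_sum_abs _ _).trans (Finset.sum_le_sum fun x _ => ?_)
  rw [abs_mul, abs_ic]
  exact mul_le_of_le_one_right (ic_nonneg _) (abs_chi_le _)

theorem mdc_nonneg (z E m : ℕ) : 0 ≤ mdc z E m :=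
  Finset.sum_nonneg fun _ _ => ic_nonneg _

theorem pf_BB (HY : T_HY) (TH : T_TH) : T_BB := by
  intro y s z E N₁ N K hz
  have hsv : ∀ m, 0 < m → ic (Good y z m) ≤ th (A3 y) s z m := by
    intro m hm
    rw [ic_congr (good_iff_sv y z m)]
    exact (TH (A3 y) s z m hm).1
  -- the pointwise bound
  have hpt : ∀ m ∈ Ioc N₁ N, ic (Cls y m) * |ff z m - FF y s z E m| ≤
      ic (Good 0 z m ∧ Om z m ≤ K) * mdc z E m +
      ic (Good 0 z m ∧ K < Om z m) * |mid z E m| + ic (Good 0 z m) * |bth z E m| +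
      2 * ((th (A3 y) s z m - ic (Good y z m)) * |RE z E m|) := by
    intro m hm
    have hm0 : 0 < m := lt_of_le_of_lt (Nat.zero_le _) (Finset.mem_Ioc.1 hm).1
    have hth := hsv m hm0
    have hR0 : 0 ≤ |RE z E m| := abs_nonneg _
    have hlast : 0 ≤ 2 * ((th (A3 y) s z m - ic (Good y z m)) * |RE z E m|) := by
      have : 0 ≤ th (A3 y) s z m - ic (Good y z m) := by linarith
      positivity
    have h0 : 0 ≤ ic (Good 0 z m ∧ Om z m ≤ K) * mdc z E m :=
      mul_nonneg (ic_nonneg _) (mdc_nonneg _ _ _)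
    have h1 : 0 ≤ ic (Good 0 z m ∧ K < Om z m) * |mid z E m| :=
      mul_nonneg (ic_nonneg _) (abs_nonneg _)
    have h2 : 0 ≤ ic (Good 0 z m) * |bth z E m| := mul_nonneg (ic_nonneg _) (abs_nonneg _)
    by_cases hC : Cls y m
    · rw [ic_pos hC, one_mul]
      have hgg : Good y z m ↔ Good 0 z m := by
        constructor
        · intro h p hp h3 _ hpz hd
          by_cases hpy : p ≤ y
          · exact hC.2 p hp (by rintro rfl; omega) hpy hd
          · exact h p hp h3 (not_le.1 hpy) hpz hd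
        · intro h p hp h3 hy hpz hd
          exact h p hp h3 hp.pos hpz hd
      unfold FF ff
      by_cases hg : Good 0 z m
      · have hg' : Good y z m := hgg.2 hg
        rw [ic_pos hg, ic_pos hg'] at *
        rw [HY z E m hz hm0 hg hC.1]
        have e : 1 * (2 * RE z E m + mid z E m - bth z E m) - 2 * th (A3 y) s z m * RE z E m =
            mid z E m - bth z E m - 2 * ((th (A3 y) s z m - 1) * RE z E m) := by ring
        rw [e]
        have hmid : |mid z E m| ≤ ic (Good 0 z m ∧ Om z m ≤ K) * mdc z E m +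
            ic (Good 0 z m ∧ K < Om z m) * |mid z E m| := by
          by_cases hK : Om z m ≤ K
          · rw [ic_pos ⟨hg, hK⟩, ic_neg (fun h => absurd h.2 (not_lt.2 hK)), one_mul, zero_mul,
              add_zero]
            exact abs_mid_le z E m
          · rw [ic_neg (fun h => hK h.2), ic_pos ⟨hg, not_le.1 hK⟩, one_mul, zero_mul, zero_add]
        have hab : |mid z E m - bth z E m - 2 * ((th (A3 y) s z m - 1) * RE z E m)| ≤
            |mid z E m| + |bth z E m| + 2 * ((th (A3 y) s z m - 1) * |RE z E m|) := by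
          have h3 := abs_sub (mid z E m - bth z E m) (2 * ((th (A3 y) s z m - 1) * RE z E m))
          have h4 := abs_sub (mid z E m) (bth z E m)
          have h5 : |2 * ((th (A3 y) s z m - 1) * RE z E m)| =
              2 * ((th (A3 y) s z m - 1) * |RE z E m|) := by
            rw [abs_mul, abs_mul, abs_of_nonneg (by norm_num : (0:ℝ) ≤ 2),
              abs_of_nonneg (by linarith : 0 ≤ th (A3 y) s z m - 1)]
          linarith
        linarith
      · have hg' : ¬ Good y z m := fun h => hg (hgg.1 h)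
        rw [ic_neg hg, ic_neg hg', zero_mul, zero_sub, abs_neg, sub_zero, zero_mul] at *
        have e : |2 * th (A3 y) s z m * RE z E m| = 2 * (th (A3 y) s z m * |RE z E m|) := by
          rw [abs_mul, abs_mul, abs_of_nonneg (by norm_num : (0:ℝ) ≤ 2), abs_of_nonneg hth]
          ring
        rw [e]
        linarith
    · rw [ic_neg hC, zero_mul]
      linarith
  refine (Finset.sum_le_sum hpt).trans ?_
  rw [Finset.sum_add_distrib, Finset.sum_add_distrib, Finset.sum_add_distrib, ← Finset.mul_sum]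
  have hsub : Ioc N₁ N ⊆ Icc 1 N := by
    intro m hm
    rw [Finset.mem_Ioc] at hm
    rw [Finset.mem_Icc]
    omega
  have hA : ∑ m ∈ Ioc N₁ N, ic (Good 0 z m ∧ Om z m ≤ K) * mdc z E m ≤
      ∑ m ∈ Icc 1 N, ic (Good 0 z m ∧ Om z m ≤ K) * mdc z E m :=
    Finset.sum_le_sum_of_subset_of_nonneg hsub fun m _ _ =>
      mul_nonneg (ic_nonneg _) (mdc_nonneg _ _ _)
  have hB : ∑ m ∈ Ioc N₁ N, (th (A3 y) s z m - ic (Good y z m)) * |RE z E m| ≤
      ∑ m ∈ Icc 1 N, (th (A3 y) s z m - ic (Good y z m)) * |RE z E m| := by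
    refine Finset.sum_le_sum_of_subset_of_nonneg hsub fun m hm _ => ?_
    have := hsv m (Finset.mem_Icc.1 hm).1
    exact mul_nonneg (by linarith) (abs_nonneg _)
  have hC : ∑ m ∈ Ioc N₁ N, ic (Good 0 z m ∧ K < Om z m) * |mid z E m| ≤
      √((∑ m ∈ Icc 1 N, ic (Good 0 z m ∧ K < Om z m)) *
        ∑ m ∈ Icc 1 N, ic (Good 0 z m) * mid z E m ^ 2) := by
    have h1 : ∑ m ∈ Ioc N₁ N, ic (Good 0 z m ∧ K < Om z m) * |mid z E m| ≤
        ∑ m ∈ Icc 1 N, ic (Good 0 z m ∧ K < Om z m) * |mid z E m| :=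
      Finset.sum_le_sum_of_subset_of_nonneg hsub fun m _ _ =>
        mul_nonneg (ic_nonneg _) (abs_nonneg _)
    refine h1.trans (Real.le_sqrt_of_sq_le ?_)
    have h2 : ∀ m, ic (Good 0 z m ∧ K < Om z m) * |mid z E m| =
        ic (Good 0 z m ∧ K < Om z m) * (ic (Good 0 z m) * |mid z E m|) := by
      intro m
      by_cases hc : Good 0 z m ∧ K < Om z m
      · rw [ic_pos hc, ic_pos hc.1, one_mul, one_mul]
      · rw [ic_neg hc, zero_mul, zero_mul]
    simp_rw [h2]
    refine (Finset.sum_mul_sq_le_sq_mul_sq _ _ _).trans (le_of_eq ?_)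
    congr 1
    · exact Finset.sum_congr rfl fun m _ => ic_sq _
    · refine Finset.sum_congr rfl fun m _ => ?_
      rw [mul_pow, ic_sq, sq_abs]
  linarith

end Pool.Agent.H94.MS
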