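import Pool.Agent.H44.MS.Basics

/-! Module BK of the board `mcs_modules`: the estimates for one block. -/

set_option autoImplicit false

namespace Pool.Agent.H94.MS

open Finset Real Pool.Agent.H44.MS

theorem bk_sum (B : Finset ℕ) (t : ℝ) :
    ∑ U ∈ B.powerset, t ^ U.card / ∏ p ∈ U, (p : ℝ) = ∏ p ∈ B, (1 + t / (p : ℝ)) := by
  rw [Finset.prod_one_add]
  refine Finset.sum_congr rfl fun U _ => ?_
  rw [Finset.prod_div_distrib, Finset.prod_const]

theorem bk_exp (B : Finset ℕ) (H t : ℝ) (ht : 0 ≤ t) (hH : ∑ p ∈ B, 1 / (p : ℝ) ≤ H) :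
    ∑ U ∈ B.powerset, t ^ U.card / ∏ p ∈ U, (p : ℝ) ≤ Real.exp (t * H) := by
  rw [bk_sum]
  calc ∏ p ∈ B, (1 + t / (p : ℝ)) ≤ ∏ p ∈ B, Real.exp (t / (p : ℝ)) := by
        refine Finset.prod_le_prod (fun p _ => by positivity) fun p _ => ?_
        have := Real.add_one_le_exp (t / (p : ℝ))
        linarith
    _ = Real.exp (t * ∑ p ∈ B, 1 / (p : ℝ)) := by
        rw [← Real.exp_sum, Finset.mul_sum]
        congr 1
        exact Finset.sum_congr rfl fun p _ => by ring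
    _ ≤ Real.exp (t * H) := Real.exp_le_exp.2 (mul_le_mul_of_nonneg_left hH ht)

theorem bk_prod_nonneg (U : Finset ℕ) : (0 : ℝ) ≤ ∏ p ∈ U, (p : ℝ) :=
  Finset.prod_nonneg fun p _ => Nat.cast_nonneg p

theorem bk_pow (K : ℝ) (hK : 0 ≤ K) (n : ℕ) : K ^ (n + 1) + 1 ≤ (K + 1) ^ (n + 1) := by
  induction n with
  | zero => simp
  | succ n ih =>
    have h1 : K ^ (n + 1 + 1) + 1 ≤ (K ^ (n + 1) + 1) * (K + 1) := by
      have : 0 ≤ K ^ (n + 1) := pow_nonneg hK _
      rw [pow_succ K (n + 1)]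
      nlinarith
    calc K ^ (n + 1 + 1) + 1 ≤ (K ^ (n + 1) + 1) * (K + 1) := h1
      _ ≤ (K + 1) ^ (n + 1) * (K + 1) := mul_le_mul_of_nonneg_right ih (by linarith)
      _ = (K + 1) ^ (n + 1 + 1) := (pow_succ _ _).symm

theorem bk_prod_sub (B : Finset ℕ) :
    ∏ p ∈ B, (1 - 1 / (p : ℝ)) = ∑ U ∈ B.powerset, (-1 : ℝ) ^ U.card / ∏ p ∈ U, (p : ℝ) := by
  rw [bk_sum]
  exact Finset.prod_congr rfl fun p _ => by ring

theorem bk_one (B : Finset ℕ) (H K : ℝ) (b : ℕ) (hK : 1 ≤ K) (hH : ∑ p ∈ B, 1 / (p : ℝ) ≤ H)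
    (g : Finset ℕ → ℝ) (h1 : ∀ U ∈ B.powerset, U.card ≤ b → g U = (-1) ^ U.card)
    (h2 : ∀ U ∈ B.powerset, |g U| ≤ K ^ U.card) :
    |∑ U ∈ B.powerset, g U / ∏ p ∈ U, (p : ℝ) - ∏ p ∈ B, (1 - 1 / (p : ℝ))| ≤
      Real.exp (16 * (K + 1) * H) / 16 ^ (b + 1) := by
  rw [bk_prod_sub, ← Finset.sum_sub_distrib]
  refine (Finset.abs_sum_le_sum_abs _ _).trans ?_
  refine (Finset.sum_le_sum (g := fun U : Finset ℕ =>
    (16 * (K + 1)) ^ U.card / (∏ p ∈ U, (p : ℝ)) / 16 ^ (b + 1)) fun U hU => ?_).trans ?_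
  · rw [← sub_div, abs_div, abs_of_nonneg (bk_prod_nonneg U), div_right_comm]
    refine div_le_div_of_nonneg_right ?_ (bk_prod_nonneg U)
    by_cases hb : U.card ≤ b
    · rw [h1 U hU hb, sub_self, abs_zero]
      positivity
    · have hb' : b + 1 ≤ U.card := by omega
      obtain ⟨n, hn⟩ : ∃ n, U.card = n + 1 := ⟨U.card - 1, by omega⟩
      have h3 : |g U - (-1) ^ U.card| ≤ K ^ U.card + 1 := by
        refine (abs_sub _ _).trans (add_le_add (h2 U hU) ?_)
        rw [abs_pow, abs_neg, abs_one, one_pow]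
      have h4 : K ^ U.card + 1 ≤ (K + 1) ^ U.card := by
        rw [hn]; exact bk_pow K (by linarith) n
      have h5 : (16 : ℝ) ^ (b + 1) ≤ 16 ^ U.card := pow_le_pow_right₀ (by norm_num) hb'
      rw [le_div_iff₀ (by positivity), mul_pow]
      have h6 : 0 ≤ (K + 1) ^ U.card := by positivity
      calc |g U - (-1) ^ U.card| * 16 ^ (b + 1) ≤ (K + 1) ^ U.card * 16 ^ U.card :=
            mul_le_mul (h3.trans h4) h5 (by positivity) h6
        _ = 16 ^ U.card * (K + 1) ^ U.card := mul_comm _ _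
  · rw [← Finset.sum_div]
    exact div_le_div_of_nonneg_right (bk_exp B H _ (by linarith) hH) (by positivity)

theorem bk_inner (B U U₁ : Finset ℕ) (hU : U ⊆ B) (y : ℝ) :
    ∑ U₂ ∈ B.powerset, (if U₁ ∪ U₂ = U then y ^ U₂.card else 0) =
      if U₁ ⊆ U then y ^ (U.card - U₁.card) * (1 + y) ^ U₁.card else 0 := by
  classical
  by_cases h : U₁ ⊆ U
  · rw [if_pos h, ← Finset.sum_filter]
    have e1 : (1 + y) ^ U₁.card = ∑ W ∈ U₁.powerset, y ^ W.card := by
      have := Finset.prod_one_add (f := fun _ : ℕ => y) U₁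
      rw [Finset.prod_const] at this
      rw [this]
      exact Finset.sum_congr rfl fun W _ => by rw [Finset.prod_const]
    rw [e1, Finset.mul_sum]
    refine Finset.sum_nbij' (fun U₂ => U₂ ∩ U₁) (fun W => (U \ U₁) ∪ W) ?_ ?_ ?_ ?_ ?_
    · intro U₂ _
      exact Finset.mem_powerset.2 Finset.inter_subset_right
    · intro W hW
      rw [Finset.mem_powerset] at hW
      rw [Finset.mem_filter, Finset.mem_powerset]
      constructor
      · refine Finset.union_subset (Finset.sdiff_subset.trans hU) (hW.trans (h.trans hU))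
      · ext a
        simp only [Finset.mem_union, Finset.mem_sdiff]
        constructor
        · rintro (ha | ⟨ha, _⟩ | ha)
          · exact h ha
          · exact ha
          · exact h (hW ha)
        · intro ha
          by_cases ha1 : a ∈ U₁
          · exact Or.inl ha1
          · exact Or.inr (Or.inl ⟨ha, ha1⟩)
    · intro U₂ hU₂
      rw [Finset.mem_filter, Finset.mem_powerset] at hU₂
      ext a
      simp only [Finset.mem_union, Finset.mem_sdiff, Finset.mem_inter]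
      constructor
      · rintro (⟨ha, hn⟩ | ⟨ha, _⟩)
        · rw [← hU₂.2, Finset.mem_union] at ha
          exact ha.resolve_left hn
        · exact ha
      · intro ha
        by_cases ha1 : a ∈ U₁
        · exact Or.inr ⟨ha, ha1⟩
        · exact Or.inl ⟨by rw [← hU₂.2]; exact Finset.mem_union_right _ ha, ha1⟩
    · intro W hW
      rw [Finset.mem_powerset] at hW
      ext a
      simp only [Finset.mem_union, Finset.mem_sdiff, Finset.mem_inter]
      constructor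
      · rintro ⟨⟨_, hn⟩ | ha, ha1⟩
        · exact absurd ha1 hn
        · exact ha
      · intro ha
        exact ⟨Or.inr ha, hW ha⟩
    · intro U₂ hU₂
      rw [Finset.mem_filter, Finset.mem_powerset] at hU₂
      rw [← pow_add]
      congr 1
      have e2 : U₂ = (U \ U₁) ∪ (U₂ ∩ U₁) := by
        ext a
        simp only [Finset.mem_union, Finset.mem_sdiff, Finset.mem_inter]
        constructor
        · intro ha
          by_cases ha1 : a ∈ U₁
          · exact Or.inr ⟨ha, ha1⟩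
          · exact Or.inl ⟨by rw [← hU₂.2]; exact Finset.mem_union_right _ ha, ha1⟩
        · rintro (⟨ha, hn⟩ | ⟨ha, _⟩)
          · rw [← hU₂.2, Finset.mem_union] at ha
            exact ha.resolve_left hn
          · exact ha
      have e3 : Disjoint (U \ U₁) (U₂ ∩ U₁) :=
        Finset.disjoint_left.2 fun a ha hb =>
          (Finset.mem_sdiff.1 ha).2 (Finset.mem_inter.1 hb).2
      conv_lhs => rw [e2]
      rw [Finset.card_union_of_disjoint e3, Finset.card_sdiff_of_subset h]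
  · rw [if_neg h]
    refine Finset.sum_eq_zero fun U₂ _ => ?_
    rw [if_neg]
    rintro rfl
    exact h Finset.subset_union_left

theorem bk_pair (B U : Finset ℕ) (hU : U ⊆ B) (x y : ℝ) :
    ∑ U₁ ∈ B.powerset, ∑ U₂ ∈ B.powerset, (if U₁ ∪ U₂ = U then x ^ U₁.card * y ^ U₂.card else 0) =
      (x * (1 + y) + y) ^ U.card := by
  classical
  rw [← Finset.sum_pow_mul_eq_add_pow]
  have e1 : ∀ U₁ ∈ B.powerset,
      ∑ U₂ ∈ B.powerset, (if U₁ ∪ U₂ = U then x ^ U₁.card * y ^ U₂.card else 0) =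
      if U₁ ⊆ U then (x * (1 + y)) ^ U₁.card * y ^ (U.card - U₁.card) else 0 := by
    intro U₁ _
    have e2 := bk_inner B U U₁ hU y
    have e3 : ∑ U₂ ∈ B.powerset, (if U₁ ∪ U₂ = U then x ^ U₁.card * y ^ U₂.card else 0) =
        x ^ U₁.card * ∑ U₂ ∈ B.powerset, (if U₁ ∪ U₂ = U then y ^ U₂.card else 0) := by
      rw [Finset.mul_sum]
      refine Finset.sum_congr rfl fun U₂ _ => ?_
      split_ifs <;> ring
    rw [e3, e2]
    split_ifs
    · rw [mul_pow]; ring
    · ring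
  rw [Finset.sum_congr rfl e1, ← Finset.sum_filter]
  refine Finset.sum_congr ?_ fun _ _ => rfl
  ext V
  simp only [Finset.mem_filter, Finset.mem_powerset]
  exact ⟨fun h => h.2, fun h => ⟨h.trans hU, h⟩⟩

theorem bk_two (B : Finset ℕ) (H : ℝ) (b : ℕ) (hH : ∑ p ∈ B, 1 / (p : ℝ) ≤ H) :
    |∑ U₁ ∈ B.powerset, ∑ U₂ ∈ B.powerset,
        ic (U₁.card ≤ b ∧ U₂.card ≤ b) * (-1) ^ (U₁.card + U₂.card) / ∏ p ∈ U₁ ∪ U₂, (p : ℝ) -
      ∏ p ∈ B, (1 - 1 / (p : ℝ))| ≤ Real.exp (64 * H) / 16 ^ (b + 1) := by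
  classical
  set F : Finset ℕ → Finset ℕ → ℝ := fun U₁ U₂ =>
    ic (U₁.card ≤ b ∧ U₂.card ≤ b) * (-1) ^ (U₁.card + U₂.card) with hF
  set g : Finset ℕ → ℝ := fun U => ∑ U₁ ∈ B.powerset, ∑ U₂ ∈ B.powerset,
    (if U₁ ∪ U₂ = U then F U₁ U₂ else 0) with hg
  have hreg : ∑ U₁ ∈ B.powerset, ∑ U₂ ∈ B.powerset, F U₁ U₂ / ∏ p ∈ U₁ ∪ U₂, (p : ℝ) =
      ∑ U ∈ B.powerset, g U / ∏ p ∈ U, (p : ℝ) := by
    simp only [hg, Finset.sum_div]
    symm
    rw [Finset.sum_comm]
    refine Finset.sum_congr rfl fun U₁ hU₁ => ?_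
    rw [Finset.sum_comm]
    refine Finset.sum_congr rfl fun U₂ hU₂ => ?_
    have hmem : U₁ ∪ U₂ ∈ B.powerset := Finset.mem_powerset.2
      (Finset.union_subset (Finset.mem_powerset.1 hU₁) (Finset.mem_powerset.1 hU₂))
    rw [Finset.sum_eq_single_of_mem (U₁ ∪ U₂) hmem]
    · rw [if_pos rfl]
    · intro V _ hV
      rw [if_neg (Ne.symm hV), zero_div]
  have h1 : ∀ U ∈ B.powerset, U.card ≤ b → g U = (-1) ^ U.card := by
    intro U hU hb
    have hU' := Finset.mem_powerset.1 hU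
    have e := bk_pair B U hU' (-1) (-1)
    have e' : ((-1 : ℝ) * (1 + -1) + -1) = -1 := by norm_num
    rw [e'] at e
    rw [← e]
    simp only [hg]
    refine Finset.sum_congr rfl fun U₁ _ => Finset.sum_congr rfl fun U₂ _ => ?_
    by_cases h : U₁ ∪ U₂ = U
    · rw [if_pos h, if_pos h]
      simp only [hF]
      rw [ic_pos, one_mul, pow_add]
      constructor
      · refine (Finset.card_le_card ?_).trans hb
        rw [← h]; exact Finset.subset_union_left
      · refine (Finset.card_le_card ?_).trans hb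
        rw [← h]; exact Finset.subset_union_right
    · rw [if_neg h, if_neg h]
  have h2 : ∀ U ∈ B.powerset, |g U| ≤ 3 ^ U.card := by
    intro U hU
    have hU' := Finset.mem_powerset.1 hU
    have e := bk_pair B U hU' 1 1
    have e' : ((1 : ℝ) * (1 + 1) + 1) = 3 := by norm_num
    rw [e'] at e
    rw [← e]
    simp only [hg]
    refine (Finset.abs_sum_le_sum_abs _ _).trans (Finset.sum_le_sum fun U₁ _ => ?_)
    refine (Finset.abs_sum_le_sum_abs _ _).trans (Finset.sum_le_sum fun U₂ _ => ?_)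
    by_cases h : U₁ ∪ U₂ = U
    · rw [if_pos h, if_pos h]
      simp only [hF]
      rw [abs_mul, abs_ic, abs_pow, abs_neg, abs_one, one_pow, one_pow, one_pow, mul_one, mul_one]
      exact ic_le_one _
    · rw [if_neg h, if_neg h, abs_zero]
  have h3 := bk_one B H 3 b (by norm_num) hH g h1 h2
  have e16 : (16 : ℝ) * (3 + 1) * H = 64 * H := by ring
  rw [e16, ← hreg] at h3
  exact h3

theorem bk_four (x : ℝ) (h0 : 0 ≤ x) (h1 : x ≤ 1 / 2) : (4 : ℝ) ^ (-x) ≤ 1 - x := by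
  have h2 := rpow_one_add_le_one_add_mul_self (s := -(1 / 2 : ℝ)) (p := 2 * x)
    (by norm_num) (by linarith) (by linarith)
  have h3 : (1 + -(1 / 2 : ℝ)) ^ (2 * x) = (4 : ℝ) ^ (-x) := by
    rw [Real.rpow_mul (by norm_num)]
    have : ((1 + -(1 / 2 : ℝ)) ^ (2 : ℝ)) = (4 : ℝ)⁻¹ := by
      norm_num
    rw [this, Real.inv_rpow (by norm_num), Real.rpow_neg (by norm_num)]
  rw [h3] at h2
  linarith

theorem bk_three (B : Finset ℕ) (H : ℝ) (hB : ∀ p ∈ B, p.Prime)
    (hH : ∑ p ∈ B, 1 / (p : ℝ) ≤ H) : (4 : ℝ) ^ (-H) ≤ ∏ p ∈ B, (1 - 1 / (p : ℝ)) := by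
  calc (4 : ℝ) ^ (-H) ≤ (4 : ℝ) ^ (∑ p ∈ B, -(1 / (p : ℝ))) := by
        refine Real.rpow_le_rpow_of_exponent_le (by norm_num) ?_
        rw [Finset.sum_neg_distrib]
        linarith
    _ = ∏ p ∈ B, (4 : ℝ) ^ (-(1 / (p : ℝ))) := Real.rpow_sum_of_pos (by norm_num) _ _
    _ ≤ ∏ p ∈ B, (1 - 1 / (p : ℝ)) := by
        refine Finset.prod_le_prod (fun p _ => Real.rpow_nonneg (by norm_num) _) fun p hp => ?_
        have h2 : (2 : ℝ) ≤ p := by exact_mod_cast (hB p hp).two_le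
        refine bk_four _ (by positivity) ?_
        exact one_div_le_one_div_of_le (by norm_num) h2

theorem bk_five (B : Finset ℕ) (H : ℝ) (b : ℕ) (hH : ∑ p ∈ B, 1 / (p : ℝ) ≤ H)
    (J : Finset ℕ) (hJ : J ∈ B.powerset) :
    |∑ U ∈ B.powerset, ic (J ⊆ U ∧ U.card ≤ b) * (-1) ^ U.card / ∏ p ∈ U, (p : ℝ)| ≤
        Real.exp H / ∏ p ∈ J, (p : ℝ) := by
  classical
  have hJ' := Finset.mem_powerset.1 hJ
  refine (Finset.abs_sum_le_sum_abs _ _).trans ?_
  have e1 := Finset.prod_add (fun p : ℕ => 1 / (p : ℝ)) (fun p : ℕ => if p ∈ J then (0 : ℝ) else 1) B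
  have h1 : ∑ U ∈ B.powerset, |ic (J ⊆ U ∧ U.card ≤ b) * (-1) ^ U.card / ∏ p ∈ U, (p : ℝ)| ≤
      ∏ p ∈ B, (1 / (p : ℝ) + if p ∈ J then (0 : ℝ) else 1) := by
    rw [e1]
    refine Finset.sum_le_sum fun U hU => ?_
    rw [abs_div, abs_mul, abs_ic, abs_pow, abs_neg, abs_one, one_pow, mul_one,
      abs_of_nonneg (bk_prod_nonneg U)]
    have e2 : ∏ p ∈ U, 1 / (p : ℝ) = 1 / ∏ p ∈ U, (p : ℝ) := by
      rw [Finset.prod_div_distrib, Finset.prod_const_one]
    rw [e2, div_eq_mul_one_div, mul_comm]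
    refine mul_le_mul_of_nonneg_left ?_ (div_nonneg zero_le_one (bk_prod_nonneg U))
    by_cases h : J ⊆ U
    · have e3 : ∏ p ∈ B \ U, (if p ∈ J then (0 : ℝ) else 1) = 1 := by
        refine Finset.prod_eq_one fun p hp => ?_
        rw [if_neg]
        intro hpJ
        exact (Finset.mem_sdiff.1 hp).2 (h hpJ)
      rw [e3]
      exact ic_le_one _
    · rw [ic_neg (fun hh => h hh.1)]
      exact Finset.prod_nonneg fun p _ => by split_ifs <;> norm_num
  refine h1.trans ?_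
  rw [← Finset.prod_sdiff hJ']
  have e4 : ∏ p ∈ J, (1 / (p : ℝ) + if p ∈ J then (0 : ℝ) else 1) = 1 / ∏ p ∈ J, (p : ℝ) := by
    have e6 : ∏ p ∈ J, 1 / (p : ℝ) = 1 / ∏ p ∈ J, (p : ℝ) := by
      rw [Finset.prod_div_distrib, Finset.prod_const_one]
    rw [← e6]
    refine Finset.prod_congr rfl fun p hp => ?_
    rw [if_pos hp, add_zero]
  have e5 : ∏ p ∈ B \ J, (1 / (p : ℝ) + if p ∈ J then (0 : ℝ) else 1) ≤ Real.exp H := by
    calc ∏ p ∈ B \ J, (1 / (p : ℝ) + if p ∈ J then (0 : ℝ) else 1)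
        ≤ ∏ p ∈ B \ J, Real.exp (1 / (p : ℝ)) := by
          refine Finset.prod_le_prod (fun p _ => ?_) fun p hp => ?_
          · have : (0 : ℝ) ≤ 1 / (p : ℝ) := by positivity
            split_ifs <;> linarith
          · rw [if_neg (Finset.mem_sdiff.1 hp).2]
            exact Real.add_one_le_exp _
      _ = Real.exp (∑ p ∈ B \ J, 1 / (p : ℝ)) := (Real.exp_sum _ _).symm
      _ ≤ Real.exp H := by
          refine Real.exp_le_exp.2 (le_trans ?_ hH)
          exact Finset.sum_le_sum_of_subset_of_nonneg Finset.sdiff_subset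
            fun p _ _ => by positivity
  rw [e4]
  calc (∏ p ∈ B \ J, (1 / (p : ℝ) + if p ∈ J then (0 : ℝ) else 1)) * (1 / ∏ p ∈ J, (p : ℝ))
      ≤ Real.exp H * (1 / ∏ p ∈ J, (p : ℝ)) :=
        mul_le_mul_of_nonneg_right e5 (div_nonneg zero_le_one (bk_prod_nonneg J))
    _ = Real.exp H / ∏ p ∈ J, (p : ℝ) := by rw [mul_one_div]

theorem pf_BK : T_BK := by
  intro B H K b hB hK hH
  refine ⟨fun g h1 h2 => bk_one B H K b hK hH g h1 h2, bk_two B H b hH, bk_three B H hB hH,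
    ?_, fun J hJ => bk_five B H b hH J hJ⟩
  refine (Finset.sum_le_sum (g := fun U : Finset ℕ =>
    (16 : ℝ) ^ U.card / (∏ p ∈ U, (p : ℝ)) / 16 ^ (b + 1)) fun U _ => ?_).trans ?_
  · rw [div_right_comm]
    refine div_le_div_of_nonneg_right ?_ (bk_prod_nonneg U)
    by_cases h : U.card = b + 1
    · rw [ic_pos h, h, div_self (by positivity)]
    · rw [ic_neg h]; positivity
  · rw [← Finset.sum_div]
    exact div_le_div_of_nonneg_right (bk_exp B H 16 (by norm_num) hH) (by positivity)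

end Pool.Agent.H94.MS
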