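import Pool.Agent.H44.MS.Basics

/-! Module AA of the board `mcs_modules`, part 1: the limit of the character factor. -/

set_option autoImplicit false

namespace Pool.Agent.H94.MS

open Finset Real Filter Topology Pool.Agent.H44.MS

/-- The factor of the number `p` in the Euler product. -/
noncomputable def tf (p : ℕ) : ℝ := ic p.Prime * chi p / p

/-- The limit of the character factor. -/
noncomputable def GI (z : ℕ) : ℝ := π / 4 * ∏ p ∈ Icc 1 z, (1 - tf p)

theorem aa_rough_prime {z : ℕ} (hz : (z + 1).Prime) (e : ℕ) :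
    ic (Rough (z + 1) e) = ic (Rough z e) - ic (Rough z e ∧ (z + 1) ∣ e) := by
  have h : Rough (z + 1) e ↔ Rough z e ∧ ¬ (z + 1) ∣ e := by
    constructor
    · intro h
      refine ⟨fun p hp hd => lt_trans (Nat.lt_succ_self z) (h p hp hd), fun hd => ?_⟩
      exact absurd (h _ hz hd) (lt_irrefl _)
    · rintro ⟨h, hn⟩ p hp hd
      have h1 := h p hp hd
      rcases Nat.lt_or_ge (z + 1) p with h2 | h2
      · exact h2
      · have : p = z + 1 := by omega
        exact absurd (this ▸ hd) hn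
  rw [ic_congr h, ic_and, ic_and, ic_not]
  ring

theorem aa_rough_not {z : ℕ} (hz : ¬ (z + 1).Prime) (e : ℕ) :
    ic (Rough (z + 1) e) = ic (Rough z e) := by
  refine ic_congr ⟨fun h p hp hd => lt_trans (Nat.lt_succ_self z) (h p hp hd), ?_⟩
  intro h p hp hd
  have h1 := h p hp hd
  rcases Nat.lt_or_ge (z + 1) p with h2 | h2
  · exact h2
  · have : p = z + 1 := by omega
    exact absurd (this ▸ hp) hz

theorem aa_mult (q x : ℕ) (hq : 0 < q) (F : ℕ → ℝ) :
    ∑ e ∈ Icc 1 x, ic (q ∣ e) * F e = ∑ f ∈ Icc 1 (x / q), F (q * f) := by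
  classical
  rw [sum_ic_mul]
  refine Finset.sum_nbij' (fun e => e / q) (fun f => q * f) ?_ ?_ ?_ ?_ ?_
  · intro e he
    rw [Finset.mem_filter, Finset.mem_Icc] at he
    obtain ⟨⟨h1, h2⟩, k, rfl⟩ := he
    have hk : 0 < k := Nat.pos_of_mul_pos_left h1
    rw [Finset.mem_Icc, Nat.mul_div_cancel_left _ hq]
    exact ⟨hk, (Nat.le_div_iff_mul_le hq).2 (by rw [mul_comm]; exact h2)⟩
  · intro f hf
    rw [Finset.mem_Icc] at hf
    rw [Finset.mem_filter, Finset.mem_Icc]
    refine ⟨⟨Nat.mul_pos hq hf.1, ?_⟩, dvd_mul_right _ _⟩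
    have := (Nat.le_div_iff_mul_le hq).1 hf.2
    rwa [mul_comm] at this
  · intro e he
    rw [Finset.mem_filter] at he
    exact Nat.mul_div_cancel' he.2
  · intro f _
    exact Nat.mul_div_cancel_left _ hq
  · intro e he
    rw [Finset.mem_filter] at he
    rw [Nat.mul_div_cancel' he.2]

theorem aa_rec {z : ℕ} (hz : (z + 1).Prime) (x : ℕ) :
    AE (z + 1) x = AE z x - tf (z + 1) * AE z (x / (z + 1)) := by
  unfold AE
  have h1 : ∀ e ∈ Icc 1 x, ic (Rough (z + 1) e) * chi e / e =
      ic (Rough z e) * chi e / e - ic ((z + 1) ∣ e) * (ic (Rough z e) * chi e / e) := by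
    intro e _
    rw [aa_rough_prime hz, ic_and]
    ring
  rw [Finset.sum_congr rfl h1, Finset.sum_sub_distrib, aa_mult _ _ (Nat.succ_pos z),
    Finset.mul_sum]
  congr 1
  refine Finset.sum_congr rfl fun f _ => ?_
  have h2 : ic (Rough z ((z + 1) * f)) = ic (Rough z f) := by
    refine ic_congr ?_
    rw [rough_mul]
    constructor
    · exact fun h => h.2
    · intro h
      refine ⟨fun p hp hd => ?_, h⟩
      rw [(Nat.prime_dvd_prime_iff_eq hp hz).1 hd]
      exact Nat.lt_succ_self z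
  rw [h2, chi_mul]
  unfold tf
  rw [ic_pos hz, one_mul]
  rw [div_mul_div_comm]
  congr 1
  · ring
  · push_cast
    ring

theorem aa_lim (L1 : T_L1) (z : ℕ) : Tendsto (fun x : ℕ => AE z x) atTop (𝓝 (GI z)) := by
  induction z with
  | zero =>
    have e1 : GI 0 = π / 4 := by
      unfold GI
      simp
    have e2 : ∀ x : ℕ, AE 0 x = ∑ b ∈ Icc 1 x, chi b / b := by
      intro x
      unfold AE
      refine Finset.sum_congr rfl fun e _ => ?_
      have h0 : Rough 0 e := fun p hp _ => hp.pos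
      rw [ic_pos h0, one_mul]
    rw [e1]
    have h0 : Tendsto (fun x : ℕ => 1 / ((x : ℝ) + 1)) atTop (𝓝 0) :=
      tendsto_one_div_add_atTop_nhds_zero_nat
    have h1 : Tendsto (fun x : ℕ => AE 0 x - π / 4) atTop (𝓝 0) :=
      squeeze_zero_norm (fun x => by rw [e2, Real.norm_eq_abs]; exact (L1 x).1) h0
    have h2 := h1.add_const (π / 4)
    rw [zero_add] at h2
    refine h2.congr fun x => ?_
    ring
  | succ z ih =>
    have e1 : GI (z + 1) = GI z * (1 - tf (z + 1)) := by
      unfold GI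
      rw [Finset.prod_Icc_succ_top (Nat.succ_le_succ (Nat.zero_le z)), mul_assoc]
    by_cases hz : (z + 1).Prime
    · have h1 : Tendsto (fun x : ℕ => AE z (x / (z + 1))) atTop (𝓝 (GI z)) :=
        ih.comp (Nat.tendsto_div_const_atTop (Nat.succ_ne_zero z))
      have h2 := ih.sub (h1.const_mul (tf (z + 1)))
      rw [e1, show GI z * (1 - tf (z + 1)) = GI z - tf (z + 1) * GI z by ring]
      refine h2.congr fun x => ?_
      rw [aa_rec hz]
    · have e2 : tf (z + 1) = 0 := by
        unfold tf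
        rw [ic_neg hz, zero_mul, zero_div]
      rw [e1, e2, sub_zero, mul_one]
      refine ih.congr fun x => ?_
      unfold AE
      exact Finset.sum_congr rfl fun e _ => by rw [aa_rough_not hz]

theorem abs_tf_le (p : ℕ) : |tf p| ≤ 1 / p := by
  unfold tf
  rw [abs_div, Nat.abs_cast]
  refine div_le_div_of_nonneg_right ?_ (Nat.cast_nonneg p)
  rw [abs_mul, abs_ic]
  exact mul_le_one₀ (ic_le_one _) (abs_nonneg _) (abs_chi_le p)

theorem abs_tf_half (p : ℕ) : |tf p| ≤ 1 / 2 := by
  by_cases hp : p.Prime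
  · refine (abs_tf_le p).trans ?_
    have : (2 : ℝ) ≤ p := by exact_mod_cast hp.two_le
    exact one_div_le_one_div_of_le (by norm_num) this
  · unfold tf
    rw [ic_neg hp, zero_mul, zero_div, abs_zero]
    norm_num

theorem aa_log_low (t : ℝ) (h : |t| ≤ 1 / 2) : Real.exp (-t - 2 * t ^ 2) ≤ 1 - t := by
  have h1 := abs_le.1 h
  have h0 : 0 < 1 - t := by linarith
  rw [← Real.le_log_iff_exp_le h0]
  have h2 := Real.one_sub_inv_le_log_of_pos h0
  refine le_trans ?_ h2
  have h3 : (1 - t)⁻¹ ≤ 1 + t + 2 * t ^ 2 := by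
    rw [inv_le_iff_one_le_mul₀ h0]
    nlinarith [mul_nonneg (sq_nonneg t) (by linarith : 0 ≤ 1 - 2 * t)]
  linarith

theorem aa_sq_sum (z : ℕ) : ∑ p ∈ Icc 1 z, (tf p) ^ 2 ≤ 2 := by
  have h1 : ∀ n : ℕ, ∑ p ∈ Icc 1 n, 1 / (p : ℝ) ^ 2 ≤ 2 - 1 / (n : ℝ) := by
    intro n
    induction n with
    | zero => norm_num
    | succ n ih =>
      rw [Finset.sum_Icc_succ_top (Nat.succ_le_succ (Nat.zero_le n))]
      rcases Nat.eq_zero_or_pos n with h0 | h0
      · subst h0; norm_num
      · have hn : (0 : ℝ) < n := by exact_mod_cast h0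
        push_cast
        have h2 : 1 / ((n : ℝ) + 1) ^ 2 ≤ 1 / (n : ℝ) - 1 / ((n : ℝ) + 1) := by
          have e : 1 / (n : ℝ) - 1 / ((n : ℝ) + 1) = 1 / ((n : ℝ) * (n + 1)) := by
            field_simp
            ring
          rw [e]
          exact one_div_le_one_div_of_le (by positivity) (by nlinarith)
        linarith
  refine le_trans (Finset.sum_le_sum fun p _ => ?_) ((h1 z).trans ?_)
  · rw [← sq_abs]
    refine (pow_le_pow_left₀ (abs_nonneg _) (abs_tf_le p) 2).trans (le_of_eq ?_)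
    rw [div_pow, one_pow]
  · have : (0 : ℝ) ≤ 1 / (z : ℝ) := by positivity
    linarith

/-- The sum over the primes is bounded. -/
theorem aa_sum (MER : T_MER) : ∃ C : ℝ, 0 < C ∧ ∀ z : ℕ, 2 ≤ z → |∑ p ∈ Icc 1 z, tf p| ≤ C := by
  obtain ⟨C, hC, h⟩ := MER
  refine ⟨C / Real.log 2, div_pos hC (Real.log_pos (by norm_num)), fun z hz => ?_⟩
  have h1 := (h 2 z le_rfl hz).2
  have e : ∑ p ∈ Icc 1 z, tf p = ∑ p ∈ Ioc 2 z, ic p.Prime * chi p / p := by
    have e1 : Icc 1 z = insert 1 (insert 2 (Ioc 2 z)) := by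
      ext p
      simp only [Finset.mem_Icc, Finset.mem_insert, Finset.mem_Ioc]
      omega
    rw [e1, Finset.sum_insert (by simp), Finset.sum_insert (by simp)]
    have e2 : tf 1 = 0 := by
      unfold tf
      rw [ic_neg Nat.not_prime_one, zero_mul, zero_div]
    have e3 : tf 2 = 0 := by
      unfold tf
      rw [chi_of_even (by norm_num), mul_zero, zero_div]
    rw [e2, e3, zero_add, zero_add]
    rfl
  rw [e]
  exact_mod_cast h1

/-- The limit is bounded from above and from below. -/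
theorem aa_GI (MER : T_MER) : ∃ c C : ℝ, 0 < c ∧ 0 < C ∧ ∀ z : ℕ, 2 ≤ z → c ≤ GI z ∧ GI z ≤ C := by
  obtain ⟨C, hC, h⟩ := aa_sum MER
  refine ⟨π / 4 * Real.exp (-C - 4), π / 4 * Real.exp C, by positivity, by positivity, ?_⟩
  intro z hz
  have h1 := abs_le.1 (h z hz)
  have h2 := aa_sq_sum z
  unfold GI
  constructor
  · refine mul_le_mul_of_nonneg_left ?_ (by positivity)
    calc Real.exp (-C - 4) ≤ Real.exp (∑ p ∈ Icc 1 z, (-tf p - 2 * tf p ^ 2)) := by
          refine Real.exp_le_exp.2 ?_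
          rw [Finset.sum_sub_distrib, Finset.sum_neg_distrib, ← Finset.mul_sum]
          linarith
      _ = ∏ p ∈ Icc 1 z, Real.exp (-tf p - 2 * tf p ^ 2) := Real.exp_sum _ _
      _ ≤ ∏ p ∈ Icc 1 z, (1 - tf p) :=
          Finset.prod_le_prod (fun _ _ => (Real.exp_pos _).le)
            fun p _ => aa_log_low _ (abs_tf_half p)
  · refine mul_le_mul_of_nonneg_left ?_ (by positivity)
    calc ∏ p ∈ Icc 1 z, (1 - tf p) ≤ ∏ p ∈ Icc 1 z, Real.exp (-tf p) := by
          refine Finset.prod_le_prod (fun p _ => ?_) fun p _ => ?_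
          · have := (abs_le.1 (abs_tf_half p)).2
            linarith
          · have := Real.add_one_le_exp (-tf p)
            linarith
      _ = Real.exp (∑ p ∈ Icc 1 z, -tf p) := (Real.exp_sum _ _).symm
      _ ≤ Real.exp C := by
          refine Real.exp_le_exp.2 ?_
          rw [Finset.sum_neg_distrib]
          linarith

end Pool.Agent.H94.MS
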