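import Pool.Agent.H44.MS.Basics

/-! Module MM of the board `mcs_modules`: the size of the mean value. -/

set_option autoImplicit false

namespace Pool.Agent.H94.MS

open Finset Real Pool.Agent.H44.MS

theorem pf_MM (DNa : T_DNa) (AA : T_AA) (VV : T_VV) : T_MM := by
  obtain ⟨S, hS⟩ := DNa
  obtain ⟨cA, CA, hcA, hCA, U, hU⟩ := AA
  obtain ⟨cV, CV, hcV, hCV, hV⟩ := VV
  refine ⟨min (cV * cA) cA, max (4 * CV * CA) CA, lt_min (by positivity) hcA,
    lt_max_of_lt_right hCA, max S 1, U, ?_⟩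
  intro s hs y z E hy hyz hE
  have hz : 2 ≤ z := hy.trans hyz
  obtain ⟨hA1, hA2⟩ := hU z E hz hE
  obtain ⟨hV1, hV2⟩ := hV y z hy hyz
  have h1 := hS s ((le_max_left _ _).trans hs) (A3 y) z hz
  have hs1 : 1 ≤ s := (le_max_right _ _).trans hs
  set r := √(Real.log y / Real.log z) with hr
  have hr0 : 0 ≤ r := Real.sqrt_nonneg _
  set V := VA (A3 y) z with hVd
  have hV0 : 0 ≤ V := le_trans (by positivity) hV1
  have h2 : V / 2 ^ s ≤ V / 2 := by
    apply div_le_div_of_nonneg_left hV0 (by norm_num)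
    calc (2 : ℝ) = 2 ^ 1 := (pow_one 2).symm
      _ ≤ 2 ^ s := pow_le_pow_right₀ (by norm_num) hs1
  have h3 : |SD y s z - V| ≤ V / 2 := h1.trans h2
  obtain ⟨h4, h5⟩ := abs_le.1 h3
  have hSD1 : V / 2 ≤ SD y s z := by linarith
  have hSD2 : SD y s z ≤ 2 * V := by linarith
  have hSD0 : 0 ≤ SD y s z := le_trans (by positivity) hSD1
  have hAE0 : 0 ≤ AE z E := hcA.le.trans hA1
  refine ⟨?_, ?_, (min_le_right _ _).trans hA1, hA2.trans (le_max_right _ _)⟩
  · calc min (cV * cA) cA * r ≤ cV * cA * r := mul_le_mul_of_nonneg_right (min_le_left _ _) hr0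
      _ = (cV * r) * cA := by ring
      _ ≤ V * AE z E := mul_le_mul hV1 hA1 hcA.le hV0
      _ = 2 * (V / 2) * AE z E := by ring
      _ ≤ MV y s z E := by
        unfold MV
        gcongr
  · calc MV y s z E = 2 * SD y s z * AE z E := rfl
      _ ≤ 2 * (2 * V) * CA := by gcongr
      _ ≤ 2 * (2 * (CV * r)) * CA := by gcongr
      _ = 4 * CV * CA * r := by ring
      _ ≤ _ := mul_le_mul_of_nonneg_right (le_max_left _ _) hr0

end Pool.Agent.H94.MS
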